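import Pool.Agent.helper14.Kus3.NumCon
import Pool.Agent.helper41.Kus3.Arcs

/-!
# Boxes: bounds of a constraint on a box (module KN6)
-/

open Set Metric MeasureTheory
open scoped ContDiff Topology

namespace Kusner.Num.P

/-- The constraint in coordinates. -/
theorem val_fpar {w0 wt : ℝ} {wv a b : E3} (_hwv : wv ≠ 0) (g : Con) (u : ℝ × ℝ) :
    g.val (fpar w0 wt wv a b u) = cP wt wv g + cQ w0 wv g * u.1 +
      Real.sqrt (rho2 w0 wt wv u.1) *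
        (inner ℝ g.u a * Real.cos u.2 + inner ℝ g.u b * Real.sin u.2) := by
  have h : ∀ x y : E3, (inner ℝ x y : ℝ) = y 0 * x 0 + y 1 * x 1 + y 2 * x 2 := by
    intro x y
    simp [PiLp.inner_apply, Fin.sum_univ_three]
  simp only [Con.val, cP, cQ, h, fpar, vec]
  simp only [Fin.isValue, Matrix.cons_val_zero, Matrix.cons_val_one,
    Matrix.cons_val]
  ring

theorem cq_sq (τ : ℚ) : cq τ ^ 2 + sq τ ^ 2 = 1 := by
  have h : (1 + τ ^ 2 : ℚ) ≠ 0 := by positivity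
  rw [cq, sq]
  field_simp
  ring

theorem abs_cq_le (τ : ℚ) : |((cq τ : ℚ) : ℝ)| ≤ 1 := by
  rw [← Rat.cast_abs]
  have h : |cq τ| ≤ 1 := by
    rw [← sq_le_one_iff_abs_le_one]
    have := cq_sq τ
    nlinarith [sq_nonneg (sq τ)]
  exact_mod_cast h

theorem abs_sq_le (τ : ℚ) : |((sq τ : ℚ) : ℝ)| ≤ 1 := by
  rw [← Rat.cast_abs]
  have h : |sq τ| ≤ 1 := by
    rw [← sq_le_one_iff_abs_le_one]
    have := cq_sq τ
    nlinarith [sq_nonneg (cq τ)]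
  exact_mod_cast h

theorem kap_pos (τ0 τ1 : ℚ) : 0 < kap τ0 τ1 := by
  rw [kap]
  have h0 := cq_sq τ0
  have h1 := cq_sq τ1
  have h : 0 ≤ 1 + (cq τ0 * cq τ1 + sq τ0 * sq τ1) := by
    nlinarith [sq_nonneg (cq τ0 + cq τ1), sq_nonneg (sq τ0 + sq τ1)]
  positivity

/-- error of a linear form in a unit vector -/
theorem lin_err {b1 b2 c1 c2 ε x y : ℝ} (h1 : |b1 - c1| ≤ ε) (h2 : |b2 - c2| ≤ ε) (hx : |x| ≤ 1)
    (hy : |y| ≤ 1) : |(b1 * x + b2 * y) - (c1 * x + c2 * y)| ≤ 2 * ε := by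
  have e : (b1 * x + b2 * y) - (c1 * x + c2 * y) = (b1 - c1) * x + (b2 - c2) * y := by ring
  rw [e]
  refine (abs_add_le _ _).trans ?_
  rw [abs_mul, abs_mul]
  have h3 : |b1 - c1| * |x| ≤ ε * 1 :=
    mul_le_mul h1 hx (abs_nonneg _) ((abs_nonneg _).trans h1)
  have h4 : |b2 - c2| * |y| ≤ ε * 1 :=
    mul_le_mul h2 hy (abs_nonneg _) ((abs_nonneg _).trans h2)
  linarith

theorem min_le_seg {q e0 e1 e : ℝ} (he : e0 ≤ e) (he' : e ≤ e1) : min (q * e0) (q * e1) ≤ q * e := by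
  rcases le_total 0 q with h | h
  · exact (min_le_left _ _).trans (mul_le_mul_of_nonneg_left he h)
  · exact (min_le_right _ _).trans (mul_le_mul_of_nonpos_left he' h)

theorem seg_le_max {q e0 e1 e : ℝ} (he : e0 ≤ e) (he' : e ≤ e1) : q * e ≤ max (q * e0) (q * e1) := by
  rcases le_total 0 q with h | h
  · exact (mul_le_mul_of_nonneg_left he' h).trans (le_max_right _ _)
  · exact (mul_le_mul_of_nonpos_left he h).trans (le_max_left _ _)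

theorem box_lo {c : QC} {ε e0 e1 rlo rhi τ0 τ1 : ℚ} (hε : 0 ≤ ε) {P Q b1 b2 e r θ : ℝ}
    (hP : |P - (c.P : ℝ)| ≤ (ε : ℝ)) (hQ : |Q - (c.Q : ℝ)| ≤ (ε : ℝ))
    (h1 : |b1 - (c.b1 : ℝ)| ≤ (ε : ℝ)) (h2 : |b2 - (c.b2 : ℝ)| ≤ (ε : ℝ))
    (hτ : τ0 < τ1) (hτ' : 0 < 1 + τ0 * τ1) (he0 : 0 ≤ e0) (he : (e0 : ℝ) ≤ e) (he' : e ≤ e1)
    (he1 : e1 ≤ 1) (hr0 : 0 ≤ rlo) (hr : (rlo : ℝ) ≤ r) (hr' : r ≤ rhi)
    (hθ : 2 * Real.arctan τ0 ≤ θ) (hθ' : θ ≤ 2 * Real.arctan τ1)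
    (hok : 0 < c.lo ε e0 e1 rlo rhi τ0 τ1) :
    0 < P + Q * e + r * (b1 * Real.cos θ + b2 * Real.sin θ) := by
  have hεR : (0 : ℝ) ≤ (ε : ℝ) := by exact_mod_cast hε
  have he0R : (0 : ℝ) ≤ (e0 : ℝ) := by exact_mod_cast he0
  have he1R : (e1 : ℝ) ≤ 1 := by exact_mod_cast he1
  have hr0R : (0 : ℝ) ≤ (rlo : ℝ) := by exact_mod_cast hr0
  have hepos : 0 ≤ e := he0R.trans he
  have heone : e ≤ 1 := he'.trans he1R
  have hrpos : 0 ≤ r := hr0R.trans hr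
  set m : ℚ := min (c.b1 * cq τ0 + c.b2 * sq τ0) (c.b1 * cq τ1 + c.b2 * sq τ1) - 2 * ε with hm
  have hm0 : (m : ℝ) ≤ b1 * (cq τ0 : ℚ) + b2 * (sq τ0 : ℚ) := by
    have h3 := abs_le.1 (lin_err h1 h2 (abs_cq_le τ0) (abs_sq_le τ0))
    have h4 : m ≤ (c.b1 * cq τ0 + c.b2 * sq τ0) - 2 * ε := sub_le_sub_right (min_le_left _ _) _
    have h5 : (m : ℝ) ≤ ((c.b1 : ℝ) * (cq τ0 : ℚ) + (c.b2 : ℝ) * (sq τ0 : ℚ)) - 2 * ε := by
      exact_mod_cast h4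
    linarith [h3.1]
  have hm1 : (m : ℝ) ≤ b1 * (cq τ1 : ℚ) + b2 * (sq τ1 : ℚ) := by
    have h3 := abs_le.1 (lin_err h1 h2 (abs_cq_le τ1) (abs_sq_le τ1))
    have h4 : m ≤ (c.b1 * cq τ1 + c.b2 * sq τ1) - 2 * ε := sub_le_sub_right (min_le_right _ _) _
    have h5 : (m : ℝ) ≤ ((c.b1 : ℝ) * (cq τ1 : ℚ) + (c.b2 : ℝ) * (sq τ1 : ℚ)) - 2 * ε := by
      exact_mod_cast h4
    linarith [h3.1]
  have harc := arc_lower hτ hτ' hθ hθ' hm0 hm1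
  have hPQ : (c.P : ℝ) - 2 * ε + min ((c.Q : ℝ) * e0) ((c.Q : ℝ) * e1) ≤ P + Q * e := by
    have h3 := (abs_le.1 hP).1
    have h4 := min_le_seg (q := (c.Q : ℝ)) he he'
    have h5 : |(Q - c.Q) * e| ≤ ε := by
      rw [abs_mul, abs_of_nonneg hepos]
      calc |Q - c.Q| * e ≤ ε * 1 := mul_le_mul hQ heone hepos hεR
        _ = ε := mul_one _
    have h6 := (abs_le.1 h5).1
    nlinarith
  have hrad : (if 0 ≤ m then (rlo : ℝ) * m else (rhi : ℝ) * ((kap τ0 τ1 : ℚ) * m)) ≤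
      r * (b1 * Real.cos θ + b2 * Real.sin θ) := by
    by_cases hm' : 0 ≤ m
    · have hmR : (0 : ℝ) ≤ (m : ℝ) := by exact_mod_cast hm'
      rw [if_pos hm']
      rw [if_pos hmR] at harc
      exact mul_le_mul hr harc hmR hrpos
    · have hmR : ¬ (0 : ℝ) ≤ (m : ℝ) := by exact_mod_cast hm'
      rw [if_neg hm']
      rw [if_neg hmR] at harc
      have hk : (0 : ℝ) < (kap τ0 τ1 : ℚ) := by exact_mod_cast kap_pos τ0 τ1
      have hkm : ((kap τ0 τ1 : ℚ) : ℝ) * m ≤ 0 := by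
        push Not at hmR
        nlinarith
      calc (rhi : ℝ) * ((kap τ0 τ1 : ℚ) * m) ≤ r * ((kap τ0 τ1 : ℚ) * m) :=
            mul_le_mul_of_nonpos_right hr' hkm
        _ ≤ _ := mul_le_mul_of_nonneg_left harc hrpos
  have hlo : (0 : ℝ) < (c.P : ℝ) - 2 * ε + min ((c.Q : ℝ) * e0) ((c.Q : ℝ) * e1) +
      (if 0 ≤ m then (rlo : ℝ) * m else (rhi : ℝ) * ((kap τ0 τ1 : ℚ) * m)) := by
    have h3 : (0 : ℝ) < ((c.lo ε e0 e1 rlo rhi τ0 τ1 : ℚ) : ℝ) := by exact_mod_cast hok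
    have h4 : c.lo ε e0 e1 rlo rhi τ0 τ1 = c.P - 2 * ε + min (c.Q * e0) (c.Q * e1) +
      (if 0 ≤ m then rlo * m else rhi * (kap τ0 τ1 * m)) := rfl
    rw [h4] at h3
    split_ifs at h3 ⊢ <;> · push_cast at h3; exact h3
  linarith

theorem box_hi {c : QC} {ε e0 e1 rlo rhi τ0 τ1 : ℚ} (hε : 0 ≤ ε) {P Q b1 b2 e r θ : ℝ}
    (hP : |P - (c.P : ℝ)| ≤ (ε : ℝ)) (hQ : |Q - (c.Q : ℝ)| ≤ (ε : ℝ))
    (h1 : |b1 - (c.b1 : ℝ)| ≤ (ε : ℝ)) (h2 : |b2 - (c.b2 : ℝ)| ≤ (ε : ℝ))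
    (hτ : τ0 < τ1) (hτ' : 0 < 1 + τ0 * τ1) (he0 : 0 ≤ e0) (he : (e0 : ℝ) ≤ e) (he' : e ≤ e1)
    (he1 : e1 ≤ 1) (hr0 : 0 ≤ rlo) (hr : (rlo : ℝ) ≤ r) (hr' : r ≤ rhi)
    (hθ : 2 * Real.arctan τ0 ≤ θ) (hθ' : θ ≤ 2 * Real.arctan τ1)
    (hok : c.hi ε e0 e1 rlo rhi τ0 τ1 ≤ 0) :
    P + Q * e + r * (b1 * Real.cos θ + b2 * Real.sin θ) ≤ 0 := by
  have hεR : (0 : ℝ) ≤ (ε : ℝ) := by exact_mod_cast hε
  have he0R : (0 : ℝ) ≤ (e0 : ℝ) := by exact_mod_cast he0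
  have he1R : (e1 : ℝ) ≤ 1 := by exact_mod_cast he1
  have hr0R : (0 : ℝ) ≤ (rlo : ℝ) := by exact_mod_cast hr0
  have hepos : 0 ≤ e := he0R.trans he
  have heone : e ≤ 1 := he'.trans he1R
  have hrpos : 0 ≤ r := hr0R.trans hr
  set m : ℚ := max (c.b1 * cq τ0 + c.b2 * sq τ0) (c.b1 * cq τ1 + c.b2 * sq τ1) + 2 * ε with hm
  have hm0 : b1 * (cq τ0 : ℚ) + b2 * (sq τ0 : ℚ) ≤ (m : ℝ) := by
    have h3 := abs_le.1 (lin_err h1 h2 (abs_cq_le τ0) (abs_sq_le τ0))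
    have h4 : (c.b1 * cq τ0 + c.b2 * sq τ0) + 2 * ε ≤ m := add_le_add_left (le_max_left _ _) _
    have h5 : ((c.b1 : ℝ) * (cq τ0 : ℚ) + (c.b2 : ℝ) * (sq τ0 : ℚ)) + 2 * ε ≤ (m : ℝ) := by
      exact_mod_cast h4
    linarith [h3.2]
  have hm1 : b1 * (cq τ1 : ℚ) + b2 * (sq τ1 : ℚ) ≤ (m : ℝ) := by
    have h3 := abs_le.1 (lin_err h1 h2 (abs_cq_le τ1) (abs_sq_le τ1))
    have h4 : (c.b1 * cq τ1 + c.b2 * sq τ1) + 2 * ε ≤ m := add_le_add_left (le_max_right _ _) _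
    have h5 : ((c.b1 : ℝ) * (cq τ1 : ℚ) + (c.b2 : ℝ) * (sq τ1 : ℚ)) + 2 * ε ≤ (m : ℝ) := by
      exact_mod_cast h4
    linarith [h3.2]
  have harc := arc_upper hτ hτ' hθ hθ' hm0 hm1
  have hPQ : P + Q * e ≤ (c.P : ℝ) + 2 * ε + max ((c.Q : ℝ) * e0) ((c.Q : ℝ) * e1) := by
    have h3 := (abs_le.1 hP).2
    have h4 := seg_le_max (q := (c.Q : ℝ)) he he'
    have h5 : |(Q - c.Q) * e| ≤ ε := by
      rw [abs_mul, abs_of_nonneg hepos]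
      calc |Q - c.Q| * e ≤ ε * 1 := mul_le_mul hQ heone hepos hεR
        _ = ε := mul_one _
    have h6 := (abs_le.1 h5).2
    nlinarith
  have hrad : r * (b1 * Real.cos θ + b2 * Real.sin θ) ≤
      (if m ≤ 0 then (rlo : ℝ) * m else (rhi : ℝ) * ((kap τ0 τ1 : ℚ) * m)) := by
    by_cases hm' : m ≤ 0
    · have hmR : (m : ℝ) ≤ 0 := by exact_mod_cast hm'
      rw [if_pos hm']
      rw [if_pos hmR] at harc
      calc r * (b1 * Real.cos θ + b2 * Real.sin θ) ≤ r * m :=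
            mul_le_mul_of_nonneg_left harc hrpos
        _ ≤ rlo * m := mul_le_mul_of_nonpos_right hr hmR
    · have hmR : ¬ (m : ℝ) ≤ 0 := by exact_mod_cast hm'
      rw [if_neg hm']
      rw [if_neg hmR] at harc
      have hk : (0 : ℝ) < (kap τ0 τ1 : ℚ) := by exact_mod_cast kap_pos τ0 τ1
      have hkm : 0 ≤ ((kap τ0 τ1 : ℚ) : ℝ) * m := by
        push Not at hmR
        positivity
      calc r * (b1 * Real.cos θ + b2 * Real.sin θ) ≤ r * ((kap τ0 τ1 : ℚ) * m) :=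
            mul_le_mul_of_nonneg_left harc hrpos
        _ ≤ rhi * ((kap τ0 τ1 : ℚ) * m) := mul_le_mul_of_nonneg_right hr' hkm
  have hhi : (c.P : ℝ) + 2 * ε + max ((c.Q : ℝ) * e0) ((c.Q : ℝ) * e1) +
      (if m ≤ 0 then (rlo : ℝ) * m else (rhi : ℝ) * ((kap τ0 τ1 : ℚ) * m)) ≤ 0 := by
    have h3 : ((c.hi ε e0 e1 rlo rhi τ0 τ1 : ℚ) : ℝ) ≤ 0 := by exact_mod_cast hok
    have h4 : c.hi ε e0 e1 rlo rhi τ0 τ1 = c.P + 2 * ε + max (c.Q * e0) (c.Q * e1) +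
      (if m ≤ 0 then rlo * m else rhi * (kap τ0 τ1 * m)) := rfl
    rw [h4] at h3
    split_ifs at h3 ⊢ <;> · push_cast at h3; exact h3
  linarith

end Kusner.Num.P
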