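import Pool.Agent.helper14.Kus3.NumCon
import Pool.Agent.helper41.Kus3.Arcs

/-!
# Measure of slices (module KN7)
-/

open Set Metric MeasureTheory
open scoped ContDiff Topology

namespace Kusner.Num.P

/-- the end of an arc -/
noncomputable def ang (τ : ℚ) : ℝ := 2 * Real.arctan τ

theorem ang_lt {τ0 τ1 : ℚ} (h : τ0 < τ1) : ang τ0 < ang τ1 := by
  have h1 : ((τ0 : ℚ) : ℝ) < τ1 := by exact_mod_cast h
  have h2 := Real.arctan_strictMono h1
  rw [ang, ang]
  linarith

theorem arcHi_nonneg {τ0 τ1 : ℚ} (h : τ0 < τ1) (h' : 0 < 1 + τ0 * τ1) :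
    (0 : ℝ) ≤ (arcHi τ0 τ1 : ℚ) := by
  have h1 := arc_len_le h h'
  have h2 := ang_lt h
  rw [ang, ang] at h2
  linarith

theorem outLen_nonneg : ∀ {l : List (ℚ × ℕ)},
    (l.IsChain fun x y => x.1 < y.1 ∧ 0 < 1 + x.1 * y.1) → (0 : ℝ) ≤ (outLen l : ℚ)
  | [], _ => by simp [outLen]
  | [_], _ => by simp [outLen]
  | (τ0, k) :: (τ1, l) :: r, h => by
      rw [List.isChain_cons_cons] at h
      have h1 := outLen_nonneg h.2
      rw [outLen]
      push_cast
      have h2 := arcHi_nonneg h.1.1 h.1.2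
      have h3 : (0 : ℝ) ≤ ((if k = 0 then arcHi τ0 τ1 else 0 : ℚ) : ℝ) := by
        split_ifs
        · exact h2
        · simp
      linarith

theorem inLen_nonneg : ∀ {l : List (ℚ × ℕ)}, (0 : ℝ) ≤ (inLen l : ℚ)
  | [] => by simp [inLen]
  | [_] => by simp [inLen]
  | (τ0, k) :: (τ1, l) :: r => by
      have h1 := inLen_nonneg (l := (τ1, l) :: r)
      rw [inLen]
      push_cast
      have h3 : (0 : ℝ) ≤ max 0 ((arcLo τ0 τ1 : ℚ) : ℝ) := le_max_left _ _
      linarith

/-- the inductive form of the outer bound -/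
theorem volume_le_aux : ∀ (l : List (ℚ × ℕ)) (x : ℚ × ℕ) {T : Set ℝ} {c : ℚ},
    ((x :: l).getLast?.map Prod.fst = some c) →
    T ⊆ Icc (ang x.1) (ang c) →
    ((x :: l).IsChain fun x y => x.1 < y.1 ∧ 0 < 1 + x.1 * y.1) →
    (∀ i (hi : i + 1 < (x :: l).length), ((x :: l)[i]).2 ≠ 0 → ∀ θ ∈ T,
      ¬(2 * Real.arctan ((x :: l)[i]).1 ≤ θ ∧ θ ≤ 2 * Real.arctan ((x :: l)[i + 1]).1)) →
    volume T ≤ ENNReal.ofReal (outLen (x :: l) : ℚ)
  | [], x, T, c, hlast, hT, _, _ => by
      have hc : x.1 = c := by simpa using hlast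
      have h1 : T ⊆ {ang c} := by
        intro θ hθ
        have h2 := hT hθ
        rw [hc, Icc_self] at h2
        exact h2
      refine (measure_mono h1).trans ?_
      simp
  | y :: l, x, T, c, hlast, hT, hs, hex => by
      rw [List.isChain_cons_cons] at hs
      have hlast' : ((y :: l).getLast?.map Prod.fst = some c) := by
        rw [List.getLast?_cons_cons] at hlast
        exact hlast
      have hxy := ang_lt hs.1.1
      -- the two parts
      have hcov : T ⊆ (T ∩ Iic (ang y.1)) ∪ (T ∩ Ici (ang y.1)) := by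
        intro θ hθ
        rcases le_total θ (ang y.1) with h | h
        · exact Or.inl ⟨hθ, h⟩
        · exact Or.inr ⟨hθ, h⟩
      have h2 : volume (T ∩ Ici (ang y.1)) ≤ ENNReal.ofReal (outLen (y :: l) : ℚ) := by
        refine volume_le_aux l y (c := c) hlast' ?_ hs.2 ?_
        · intro θ hθ
          exact ⟨hθ.2, (hT hθ.1).2⟩
        · intro i hi hne θ hθ
          have := hex (i + 1) (by simpa using hi) (by simpa using hne) θ hθ.1
          simpa using this
      have h1 : volume (T ∩ Iic (ang y.1)) ≤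
          ENNReal.ofReal ((if x.2 = 0 then arcHi x.1 y.1 else 0 : ℚ) : ℝ) := by
        by_cases hk : x.2 = 0
        · rw [if_pos hk]
          have hsub : T ∩ Iic (ang y.1) ⊆ Icc (ang x.1) (ang y.1) := fun θ hθ =>
            ⟨(hT hθ.1).1, hθ.2⟩
          refine (measure_mono hsub).trans ?_
          rw [Real.volume_Icc]
          exact ENNReal.ofReal_le_ofReal (arc_len_le hs.1.1 hs.1.2)
        · have hemp : T ∩ Iic (ang y.1) = ∅ := by
            rw [eq_empty_iff_forall_notMem]
            intro θ hθ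
            exact hex 0 (by simp) hk θ hθ.1 ⟨(hT hθ.1).1, hθ.2⟩
          rw [hemp]
          simp
      refine (measure_mono hcov).trans ((measure_union_le _ _).trans ?_)
      refine (add_le_add h1 h2).trans ?_
      have h3 : (0 : ℝ) ≤ ((if x.2 = 0 then arcHi x.1 y.1 else 0 : ℚ) : ℝ) := by
        split_ifs
        · exact arcHi_nonneg hs.1.1 hs.1.2
        · simp
      rw [← ENNReal.ofReal_add h3 (outLen_nonneg hs.2)]
      have e : outLen (x :: y :: l) = (if x.2 = 0 then arcHi x.1 y.1 else 0) + outLen (y :: l) := rfl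
      rw [e]
      push_cast
      exact le_rfl

/-- Outer arcs: if each `θ ∈ T` has `cos θ ≥ 0` and `T` avoids the excluded arcs, then the
measure of `T` is at most `outLen`. -/
theorem volume_le_outLen {l : List (ℚ × ℕ)} {T : Set ℝ} (hT : T ⊆ Ioc (-Real.pi) Real.pi)
    (hcos : ∀ θ ∈ T, 0 ≤ Real.cos θ) (hhead : l.head?.map Prod.fst = some (-1))
    (hlast : l.getLast?.map Prod.fst = some 1)
    (hsorted : l.IsChain fun x y => x.1 < y.1 ∧ 0 < 1 + x.1 * y.1)
    (hex : ∀ i (hi : i + 1 < l.length), (l[i]).2 ≠ 0 → ∀ θ ∈ T,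
      ¬(2 * Real.arctan (l[i]).1 ≤ θ ∧ θ ≤ 2 * Real.arctan (l[i + 1]).1)) :
    volume T ≤ ENNReal.ofReal (outLen l : ℚ) := by
  rcases l with _ | ⟨x, l⟩
  · simp at hhead
  have hx : x.1 = -1 := by simpa using hhead
  refine volume_le_aux l x (c := 1) hlast ?_ hsorted hex
  intro θ hθ
  have h1 : ang x.1 = -(Real.pi / 2) := by
    rw [ang, hx]
    push_cast
    rw [Real.arctan_neg, Real.arctan_one]
    ring
  have h2 : ang 1 = Real.pi / 2 := by
    rw [ang]
    push_cast
    rw [Real.arctan_one]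
    ring
  rw [h1, h2]
  have h3 := hT hθ
  have h4 := hcos θ hθ
  constructor
  · by_contra hcon
    push Not at hcon
    have h5 : Real.cos θ < 0 := by
      have h6 : Real.cos (θ + 2 * Real.pi) < 0 :=
        Real.cos_neg_of_pi_div_two_lt_of_lt (by linarith [h3.1, Real.pi_pos]) (by linarith)
      rwa [Real.cos_add_two_pi] at h6
    linarith
  · by_contra hcon
    push Not at hcon
    have h5 : Real.cos θ < 0 :=
      Real.cos_neg_of_pi_div_two_lt_of_lt hcon (by linarith [h3.2, Real.pi_pos])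
    linarith

theorem inLen_aux : ∀ (l : List (ℚ × ℕ)) (x : ℚ × ℕ) {T : Set ℝ},
    ((x :: l).IsChain fun x y => x.1 < y.1 ∧ 0 < 1 + x.1 * y.1) →
    (∀ i (hi : i + 1 < (x :: l).length), ∀ θ, 2 * Real.arctan ((x :: l)[i]).1 ≤ θ →
      θ ≤ 2 * Real.arctan ((x :: l)[i + 1]).1 → θ ∈ T) →
    ENNReal.ofReal (inLen (x :: l) : ℚ) ≤ volume (T ∩ Ici (ang x.1))
  | [], x, T, _, _ => by simp [inLen]
  | y :: l, x, T, hs, hin => by
      rw [List.isChain_cons_cons] at hs
      have hxy := ang_lt hs.1.1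
      have h2 : ENNReal.ofReal (inLen (y :: l) : ℚ) ≤ volume (T ∩ Ici (ang y.1)) := by
        refine inLen_aux l y hs.2 ?_
        intro i hi θ h3 h4
        refine hin (i + 1) (by simpa using hi) θ (by simpa using h3) (by simpa using h4)
      have h1 : ENNReal.ofReal (max 0 ((arcLo x.1 y.1 : ℚ) : ℝ)) ≤
          volume (Ico (ang x.1) (ang y.1)) := by
        rw [Real.volume_Ico]
        refine ENNReal.ofReal_le_ofReal (max_le (by linarith) ?_)
        exact le_arc_len hs.1.1 hs.1.2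
      have hdis : Disjoint (Ico (ang x.1) (ang y.1)) (T ∩ Ici (ang y.1)) := by
        rw [Set.disjoint_left]
        intro θ h3 h4
        exact absurd h3.2 (not_lt.2 h4.2)
      have hsub : Ico (ang x.1) (ang y.1) ∪ (T ∩ Ici (ang y.1)) ⊆ T ∩ Ici (ang x.1) := by
        rintro θ (h3 | h3)
        · exact ⟨hin 0 (by simp) θ h3.1 h3.2.le, h3.1⟩
        · exact ⟨h3.1, hxy.le.trans h3.2⟩
      refine le_trans ?_ (measure_mono hsub)
      rw [measure_union' hdis measurableSet_Ico]
      refine le_trans ?_ (add_le_add h1 h2)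
      rw [← ENNReal.ofReal_add (le_max_left _ _) inLen_nonneg]
      have e : inLen (x :: y :: l) = max 0 (arcLo x.1 y.1) + inLen (y :: l) := rfl
      rw [e]
      push_cast
      exact le_rfl

/-- Inner arcs: if the consecutive arcs are in `T`, the measure of `T` is at least `inLen`. -/
theorem inLen_le_volume {l : List (ℚ × ℕ)} {T : Set ℝ}
    (hsorted : l.IsChain fun x y => x.1 < y.1 ∧ 0 < 1 + x.1 * y.1)
    (hin : ∀ i (hi : i + 1 < l.length), ∀ θ, 2 * Real.arctan (l[i]).1 ≤ θ →
      θ ≤ 2 * Real.arctan (l[i + 1]).1 → θ ∈ T) :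
    ENNReal.ofReal (inLen l : ℚ) ≤ volume T := by
  rcases l with _ | ⟨x, l⟩
  · simp [inLen]
  exact (inLen_aux l x hsorted hin).trans (measure_mono inter_subset_left)

end Kusner.Num.P
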